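import Pool.Agent.R965.SG.Exist

/-!
The joint recursive distributional equation of the diluted quadratic spin glass has exactly one
solution `(U, X)` with `E[(U X)²] < ∞`.
-/

open MeasureTheory ProbabilityTheory Finset Filter Topology
open scoped ENNReal NNReal BigOperators

namespace Pool.Agent.Results.MP_75c26c_pr.JointLaw

/-- One step of the construction. The argument is `(R, y)` with `y k = ((ξ_k, ζ_k), (U_k, X_k))`;
the value is
`(1 - 2β ∑_{k<R} ξ_k ζ_k U_k X_k / W_k, 1 / (1 + 2β ∑_{k<R} ζ_k² / W_k))`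
with `W_k = 1 + 2β ξ_k² X_k`. -/
noncomputable def update (β : ℝ) (p : ℕ × (ℕ → (ℝ × ℝ) × (ℝ × ℝ))) : ℝ × ℝ :=
  (1 - 2 * β * ∑ k ∈ range p.1, (p.2 k).1.1 * (p.2 k).1.2 * (p.2 k).2.1 * (p.2 k).2.2
      / (1 + 2 * β * (p.2 k).1.1 ^ 2 * (p.2 k).2.2),
    1 / (1 + 2 * β * ∑ k ∈ range p.1, (p.2 k).1.2 ^ 2
      / (1 + 2 * β * (p.2 k).1.1 ^ 2 * (p.2 k).2.2)))

/-- `Φ(π)`: the law of `update β (R, y)` where `R ~ Poisson(2α)` is independent of the i.i.d.
sequence `y` whose entries `((ξ, ζ), (U, X))` have law `(D ⊗ D) ⊗ π`. -/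
noncomputable def Phi (α β : ℝ) (D : Measure ℝ) (π : Measure (ℝ × ℝ)) : Measure (ℝ × ℝ) :=
  ((poissonMeasure (2 * α).toNNReal).prod
    (Measure.infinitePi fun _ : ℕ => (D.prod D).prod π)).map (update β)

/-- The class of laws: probability measures on `ℝ × [0,1]` with `E[(U X)²] < ∞`. -/
structure InClass (π : Measure (ℝ × ℝ)) : Prop where
  prob : IsProbabilityMeasure π
  supp : ∀ᵐ q ∂π, q.2 ∈ Set.Icc (0 : ℝ) 1
  moment : Integrable (fun q : ℝ × ℝ => (q.1 * q.2) ^ 2) π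

open Pool.Agent.R965.SG

lemma update_eq {β : ℝ} (hβ : 0 < β) (p : ℕ × (ℕ → (ℝ × ℝ) × (ℝ × ℝ)))
    (hp : ∀ k, (p.2 k).2.2 ∈ Set.Icc (0 : ℝ) 1) : update β p = FU (2 * β) p := by
  have hcl : ∀ k, cl (p.2 k).2.2 = (p.2 k).2.2 := fun k => cl_of_mem (hp k).1 (hp k).2
  unfold update FU
  ext
  · simp only
    rw [Finset.mul_sum]
    congr 1
    refine Finset.sum_congr rfl fun k _ => ?_
    unfold aw W
    rw [hcl]
    ring
  · simp only
    unfold Xc
    rw [NNReal.coe_sum, Finset.mul_sum]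
    congr 2
    refine Finset.sum_congr rfl fun k _ => ?_
    rw [sw_coe (by positivity)]
    unfold W
    rw [hcl]
    ring

lemma Phi_eq {α β : ℝ} (hβ : 0 < β) (D : Measure ℝ) [IsProbabilityMeasure D]
    (π : Measure (ℝ × ℝ)) [IsProbabilityMeasure π]
    (hπ : ∀ᵐ q ∂π, q.2 ∈ Set.Icc (0 : ℝ) 1) :
    Phi α β D π = TT (2 * α).toNNReal (D.prod D) (FU (2 * β)) π := by
  have h1 : ∀ᵐ z ∂((D.prod D).prod π), z.2.2 ∈ Set.Icc (0 : ℝ) 1 := by
    have hq : Measure.QuasiMeasurePreserving (Prod.snd : (ℝ × ℝ) × (ℝ × ℝ) → ℝ × ℝ)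
        ((D.prod D).prod π) π := Measure.quasiMeasurePreserving_snd
    exact hq.ae hπ
  have h2 := ae_Q (2 * α).toNNReal ((D.prod D).prod π) h1
  change (Q (2 * α).toNNReal ((D.prod D).prod π)).map (update β)
    = (Q (2 * α).toNNReal ((D.prod D).prod π)).map (FU (2 * β))
  apply Measure.map_congr
  filter_upwards [h2] with p hp
  exact update_eq hβ p hp

/-- **Main theorem.** For all `α, β > 0` and every symmetric probability law `D` on `ℝ` with finite
second moment, `Φ` has exactly one fixed point among the laws on `ℝ × [0,1]` with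
`E[(U X)²] < ∞`, and this fixed point has `E[U²] < ∞`. -/
theorem result (α β : ℝ) (_hα : 0 < α) (hβ : 0 < β) (D : Measure ℝ) [IsProbabilityMeasure D]
    (hsym : D.map (fun x => -x) = D) (hmom : Integrable (fun x : ℝ => x ^ 2) D) :
    (∃! π : Measure (ℝ × ℝ), InClass π ∧ Phi α β D π = π) ∧
      ∀ π : Measure (ℝ × ℝ), InClass π → Phi α β D π = π →
        Integrable (fun q : ℝ × ℝ => q.1 ^ 2) π := by
  have hA : A2 D ≠ ∞ := hmom.lintegral_lt_top.ne
  have hb : 0 < 2 * β := by positivity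
  have hmom2 : ∀ π : Measure (ℝ × ℝ), InClass π →
      ∫⁻ q, ENNReal.ofReal ((q.1 * cl q.2) ^ 2) ∂π ≠ ∞ := by
    rintro π ⟨_, hsupp, hm⟩
    have := hm.lintegral_lt_top
    refine (lt_of_le_of_lt (le_of_eq ?_) this).ne
    apply lintegral_congr_ae
    filter_upwards [hsupp] with q hq
    rw [cl_of_mem hq.1 hq.2]
  constructor
  · obtain ⟨π, hp, hfix, hmem, h2⟩ := joint_exists hb (2 * α).toNNReal D hsym hA
    have hsupp : ∀ᵐ q ∂π, q.2 ∈ Set.Icc (0 : ℝ) 1 := by
      filter_upwards [hmem] with q hq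
      exact ⟨hq.1.le, hq.2⟩
    refine ⟨π, ⟨⟨hp, hsupp, ?_⟩, ?_⟩, ?_⟩
    · refine ⟨by fun_prop, ?_⟩
      rw [hasFiniteIntegral_iff_ofReal (Eventually.of_forall fun q => by positivity)]
      refine lt_of_le_of_lt (le_of_eq ?_) (lt_top_iff_ne_top.2 h2)
      apply lintegral_congr_ae
      filter_upwards [hsupp] with q hq
      rw [cl_of_mem hq.1 hq.2]
    · rw [Phi_eq hβ D π hsupp, hfix]
    · rintro π' ⟨hc', hfix'⟩
      have hp' := hc'.prob
      have h2' := hmom2 π' hc'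
      rw [Phi_eq hβ D π' hc'.supp] at hfix'
      exact joint_unique hb (2 * α).toNNReal D hsym hA π' π hfix' hfix h2' h2
  · intro π hc hfix
    have hp := hc.prob
    rw [Phi_eq hβ D π hc.supp] at hfix
    have h := fixed_U_sq hb (2 * α).toNNReal D hsym hA π hfix (hmom2 π hc)
    refine ⟨by fun_prop, ?_⟩
    rw [hasFiniteIntegral_iff_ofReal (Eventually.of_forall fun q => by positivity)]
    exact lt_top_iff_ne_top.2 h

end Pool.Agent.Results.MP_75c26c_pr.JointLaw
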